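import Mathlib
import Pool.Agent.N325.FC.Stm

/-!
# Project FC, leaf ZETA: `2 Σ (j + 1/2)^(-s) = 2 (2^s - 1) ζ(s)`
-/

set_option autoImplicit false

namespace Pool.Agent.N38.FC

open Pool.Agent.N325.FC

theorem summ1 {s : ℝ} (hs : 1 < s) : Summable (fun n : ℕ => ((n : ℝ) + 1) ^ (-s)) := by
  have h : Summable (fun n : ℕ => (n : ℝ) ^ (-s)) := Real.summable_nat_rpow.2 (by linarith)
  have h2 := (summable_nat_add_iff 1).2 h
  simpa using h2

theorem half_eq (s : ℝ) (j : ℕ) :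
    ((j : ℝ) + 1 / 2) ^ (-s) = 2 ^ s * (((2 * j : ℕ) : ℝ) + 1) ^ (-s) := by
  have h : (((2 * j : ℕ) : ℝ) + 1) = 2 * ((j : ℝ) + 1 / 2) := by
    push_cast
    ring
  rw [h, Real.mul_rpow (by norm_num) (by positivity), ← mul_assoc, ← Real.rpow_add (by norm_num),
    add_neg_cancel, Real.rpow_zero, one_mul]

theorem odd_eq (s : ℝ) (j : ℕ) :
    (((2 * j + 1 : ℕ) : ℝ) + 1) ^ (-s) = 2 ^ (-s) * ((j : ℝ) + 1) ^ (-s) := by
  have h : (((2 * j + 1 : ℕ) : ℝ) + 1) = 2 * ((j : ℝ) + 1) := by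
    push_cast
    ring
  rw [h, Real.mul_rpow (by norm_num) (by positivity)]

theorem zeta : StmZETA := by
  intro s hs
  have hf := summ1 hs
  set f : ℕ → ℝ := fun n => ((n : ℝ) + 1) ^ (-s) with hfdef
  have he : Summable (fun k : ℕ => f (2 * k)) :=
    hf.comp_injective (fun a b h => by simpa using h : Function.Injective (fun k : ℕ => 2 * k))
  have ho : Summable (fun k : ℕ => f (2 * k + 1)) :=
    hf.comp_injective (fun a b h => by simpa using h : Function.Injective (fun k : ℕ => 2 * k + 1))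
  have hhalf : (fun j : ℕ => ((j : ℝ) + 1 / 2) ^ (-s)) = fun j => 2 ^ s * f (2 * j) := by
    funext j
    exact half_eq s j
  have hsum : Summable (fun j : ℕ => ((j : ℝ) + 1 / 2) ^ (-s)) := by
    rw [hhalf]
    exact he.mul_left _
  refine ⟨hsum, ?_⟩
  have hZ : (riemannZeta (s : ℂ)).re = ∑' n, f n := by
    rw [zeta_eq_tsum_one_div_nat_add_one_cpow (by simpa using hs)]
    have h1 : ∀ n : ℕ, (1 : ℂ) / ((n : ℂ) + 1) ^ (s : ℂ) = ((f n : ℝ) : ℂ) := by
      intro n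
      have hn : (0 : ℝ) ≤ (n : ℝ) + 1 := by positivity
      show (1 : ℂ) / ((n : ℂ) + 1) ^ (s : ℂ) = ((((n : ℝ) + 1) ^ (-s) : ℝ) : ℂ)
      rw [Real.rpow_neg hn, Complex.ofReal_inv, Complex.ofReal_cpow hn, one_div]
      push_cast
      rfl
    rw [tsum_congr h1, ← Complex.ofReal_tsum, Complex.ofReal_re]
  have hsplit := tsum_even_add_odd he ho
  have hodd : ∑' k, f (2 * k + 1) = 2 ^ (-s) * ∑' k, f k := by
    rw [← tsum_mul_left]
    exact tsum_congr fun j => odd_eq s j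
  have hhs : ∑' j : ℕ, ((j : ℝ) + 1 / 2) ^ (-s) = 2 ^ s * ∑' j, f (2 * j) := by
    rw [hhalf, tsum_mul_left]
  have h2 : (2 : ℝ) ^ s * 2 ^ (-s) = 1 := by
    rw [← Real.rpow_add (by norm_num), add_neg_cancel, Real.rpow_zero]
  unfold Cc
  rw [hhs, hZ]
  have h3 : ∑' j, f (2 * j) = ∑' k, f k - 2 ^ (-s) * ∑' k, f k := by
    rw [← hodd]
    linarith
  rw [h3]
  linear_combination (-2 * ∑' k, f k) * h2

end Pool.Agent.N38.FC
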